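import Pool.Agent.R951.SH.Upper

/-!
# `13 k*(n) < 6 n` for all large `n`
-/

set_option autoImplicit false

namespace Pool.Agent.R951.SH

open Filter Topology

theorem ev_pow (m : ℕ) {r : ℝ} (hr : 1 < r) (A : ℝ) (hA : 0 < A) :
    ∀ᶠ n : ℕ in atTop, A * (n : ℝ) ^ m ≤ r ^ n := by
  have h := tendsto_pow_const_div_const_pow_of_one_lt m hr
  have h1 := h.eventually (gt_mem_nhds (show (0 : ℝ) < 1 / A by positivity))
  filter_upwards [h1] with n hn
  have hp : 0 < r ^ n := by positivity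
  rw [div_lt_div_iff₀ hp hA] at hn
  linarith

theorem exp_bound {n : ℕ} {g : ℝ} (h : (n : ℝ) ^ 2 + 1 ≤ g) :
    (n : ℝ) ^ n * Real.exp (-g) < 1 / 2 := by
  have h1 : (n : ℝ) ^ n ≤ Real.exp ((n : ℝ) ^ 2) := by
    have e : Real.exp ((n : ℝ) ^ 2) = Real.exp (n : ℝ) ^ n := by
      rw [← Real.exp_nat_mul, sq]
    rw [e]
    apply pow_le_pow_left₀ (by positivity)
    have := Real.add_one_le_exp (n : ℝ)
    linarith
  calc (n : ℝ) ^ n * Real.exp (-g) ≤ Real.exp ((n : ℝ) ^ 2) * Real.exp (-g) :=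
        mul_le_mul_of_nonneg_right h1 (Real.exp_pos _).le
    _ = Real.exp ((n : ℝ) ^ 2 - g) := by rw [← Real.exp_add]; ring_nf
    _ ≤ Real.exp (-1) := Real.exp_le_exp.mpr (by linarith)
    _ < 1 / 2 := by
        rw [Real.exp_neg, inv_lt_comm₀ (Real.exp_pos 1) (by norm_num)]
        have := Real.exp_one_gt_d9
        norm_num
        linarith

theorem not_good_eventually :
    ∀ᶠ n : ℕ in atTop, ∀ k : ℕ, 2 * k ≤ n → 6 * n ≤ 13 * k → ¬ Good n k := by
  have hR : (1 : ℝ) < 531441 / 524288 := by norm_num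
  have a1 := ev_pow 26 hR (256 ^ 13) (by norm_num)
  have a2 : ∀ᶠ n : ℕ in atTop, (6770 : ℝ) * ((n / 13 : ℕ) : ℝ) ^ 2 ≤ (3 / 2) ^ (n / 13) := by
    have := ev_pow 2 (show (1 : ℝ) < 3 / 2 by norm_num) 6770 (by norm_num)
    exact (Nat.tendsto_div_const_atTop (by norm_num : (13 : ℕ) ≠ 0)).eventually this
  filter_upwards [a1, a2, eventually_ge_atTop 13] with n h1 h2 hn k hk hk6
  have hn' : (13 : ℝ) ≤ n := by exact_mod_cast hn
  have hl : 1 ≤ n / 13 := by omega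
  have hl' : (1 : ℝ) ≤ ((n / 13 : ℕ) : ℝ) := by exact_mod_cast hl
  -- `G ≥ 256 n²`
  have hG : 256 * (n : ℝ) ^ 2 ≤ (9 / 2 : ℝ) ^ k / 2 ^ n := by
    have e1 : (256 * (n : ℝ) ^ 2) ^ 13 ≤ ((9 / 2 : ℝ) ^ k / 2 ^ n) ^ 13 := by
      calc (256 * (n : ℝ) ^ 2) ^ 13 = 256 ^ 13 * (n : ℝ) ^ 26 := by rw [mul_pow, ← pow_mul]
        _ ≤ (531441 / 524288) ^ n := h1
        _ = (9 / 2 : ℝ) ^ (6 * n) / 2 ^ (13 * n) := by
            rw [pow_mul, pow_mul, ← div_pow]; norm_num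
        _ ≤ (9 / 2 : ℝ) ^ (13 * k) / 2 ^ (13 * n) := by
            apply div_le_div_of_nonneg_right _ (by positivity)
            exact pow_le_pow_right₀ (by norm_num) hk6
        _ = _ := by
            rw [div_pow ((9 / 2 : ℝ) ^ k) (2 ^ n) 13, ← pow_mul, ← pow_mul, mul_comm k 13,
              mul_comm n 13]
    exact (pow_le_pow_iff_left₀ (by positivity) (by positivity) (by norm_num)).mp e1
  apply not_good hk hl
  · -- h1
    have e1 : ((2 : ℝ) ^ (n - 2 * k + n / 13 + k + 1)) ^ 13 ≤ ((3 : ℝ) ^ k) ^ 13 := by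
      rw [← pow_mul, ← pow_mul]
      calc (2 : ℝ) ^ ((n - 2 * k + n / 13 + k + 1) * 13) ≤ 2 ^ (9 * n) :=
            pow_le_pow_right₀ (by norm_num) (by omega)
        _ = 512 ^ n := by rw [pow_mul]; norm_num
        _ ≤ 729 ^ n := pow_le_pow_left₀ (by norm_num) (by norm_num) n
        _ = 3 ^ (6 * n) := by rw [pow_mul]; norm_num
        _ ≤ 3 ^ (k * 13) := pow_le_pow_right₀ (by norm_num) (by omega)
    exact (pow_le_pow_iff_left₀ (by positivity) (by positivity) (by norm_num)).mp e1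
  · apply exp_bound
    have e : (9 / 2 : ℝ) ^ k / 2 ^ (n + 7) = ((9 / 2 : ℝ) ^ k / 2 ^ n) / 128 := by
      rw [pow_add]; field_simp; norm_num
    rw [e]
    nlinarith
  · apply exp_bound
    have e : (n : ℝ) ≤ 26 * ((n / 13 : ℕ) : ℝ) := by
      have : n ≤ 26 * (n / 13) := by omega
      exact_mod_cast this
    have e2 : (n : ℝ) ^ 2 ≤ 676 * ((n / 13 : ℕ) : ℝ) ^ 2 := by nlinarith
    nlinarith
  · rw [le_div_iff₀ (by positivity)] at hG
    calc (2 : ℝ) ^ (n + 5) = 32 * 2 ^ n := by rw [pow_add]; ring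
      _ ≤ 256 * (n : ℝ) ^ 2 * 2 ^ n := by
          apply mul_le_mul_of_nonneg_right _ (by positivity)
          nlinarith
      _ ≤ _ := hG
  · omega

theorem upper_eventually : ∀ᶠ n : ℕ in atTop, 13 * kstar n < 6 * n := by
  filter_upwards [not_good_eventually, eventually_ge_atTop 1] with n h hn
  by_contra hc
  push Not at hc
  have h0 := dict_bound hn (good_kstar hn)
  exact h (kstar n) (by omega) hc (good_kstar hn)

end Pool.Agent.R951.SH
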