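import Mathlib

/-!
# MP_5c4cbf_co: matchings shattered by maximal intersecting families
-/

set_option autoImplicit false

namespace Pool.Agent.R951.SH

open Finset

/-- `F` is an intersecting family of subsets of `Fin n`. -/
def Intersecting {n : ℕ} (F : Set (Finset (Fin n))) : Prop :=
  ∀ A ∈ F, ∀ B ∈ F, (A ∩ B).Nonempty

/-- `F` is a maximal intersecting family. -/
def MaxIntersecting {n : ℕ} (F : Set (Finset (Fin n))) : Prop :=
  Intersecting F ∧ ∀ S, S ∉ F → ¬ Intersecting (insert S F)

/-- A matching of size `k`: the pairs `{a i, b i}`, `i < k`, are disjoint pairs of distinct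
elements, i.e. the `2k` elements are distinct. -/
def IsMatching {n k : ℕ} (a b : Fin k → Fin n) : Prop :=
  Function.Injective (Sum.elim a b)

/-- The matching is shattered by `F`: for every choice `c` of one element in every pair there is a
member of `F` which meets the union of the pairs exactly in the chosen elements. -/
def Shatters {n k : ℕ} (F : Set (Finset (Fin n))) (a b : Fin k → Fin n) : Prop :=
  ∀ c : Fin k → Bool, ∃ A ∈ F,
    A ∩ (univ.image a ∪ univ.image b) = univ.image fun i => if c i then a i else b i

/-- Every maximal intersecting family shatters some matching of size `k`. -/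
def Good (n k : ℕ) : Prop :=
  ∀ F : Set (Finset (Fin n)), MaxIntersecting F →
    ∃ a b : Fin k → Fin n, IsMatching a b ∧ Shatters F a b

/-- `k*(n)`: the largest `k` such that every maximal intersecting family shatters some matching of
size `k`. -/
noncomputable def kstar (n : ℕ) : ℕ := sSup {k | Good n k}

variable {n : ℕ}

theorem upward {F : Set (Finset (Fin n))} (h : MaxIntersecting F) {A B : Finset (Fin n)}
    (hA : A ∈ F) (hAB : A ⊆ B) : B ∈ F := by
  by_contra hB
  apply h.2 B hB
  intro C hC D hD
  rcases hC with rfl | hC <;> rcases hD with rfl | hD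
  · rw [inter_self]
    obtain ⟨x, hx⟩ := h.1 A hA A hA
    exact ⟨x, hAB (mem_inter.mp hx).1⟩
  · obtain ⟨x, hx⟩ := h.1 A hA D hD
    rw [mem_inter] at hx
    exact ⟨x, mem_inter.mpr ⟨hAB hx.1, hx.2⟩⟩
  · obtain ⟨x, hx⟩ := h.1 C hC A hA
    rw [mem_inter] at hx
    exact ⟨x, mem_inter.mpr ⟨hx.1, hAB hx.2⟩⟩
  · exact h.1 C hC D hD

theorem univ_mem (hn : 1 ≤ n) {F : Set (Finset (Fin n))} (h : MaxIntersecting F) :
    (univ : Finset (Fin n)) ∈ F := by
  by_contra hU
  apply h.2 univ hU
  have hne : ∀ C ∈ F, C.Nonempty := by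
    intro C hC
    have := h.1 C hC C hC
    rwa [inter_self] at this
  intro C hC D hD
  rcases hC with rfl | hC <;> rcases hD with rfl | hD
  · rw [inter_self]
    exact ⟨⟨0, hn⟩, mem_univ _⟩
  · rw [univ_inter]
    exact hne D hD
  · rw [inter_univ]
    exact hne C hC
  · exact h.1 C hC D hD

theorem compl_mem (hn : 1 ≤ n) {F : Set (Finset (Fin n))} (h : MaxIntersecting F)
    {A : Finset (Fin n)} (hA : A ∉ F) : Aᶜ ∈ F := by
  by_cases hA0 : A = ∅
  · subst hA0
    rw [compl_empty]
    exact univ_mem hn h
  have h1 := h.2 A hA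
  unfold Intersecting at h1
  push Not at h1
  obtain ⟨C, hC, D, hD, hCD⟩ := h1
  have key : ∀ E ∈ F, A ∩ E = ∅ → Aᶜ ∈ F := by
    intro E hE hAE
    apply upward h hE
    intro x hx
    rw [mem_compl]
    intro hxA
    have : x ∈ A ∩ E := mem_inter.mpr ⟨hxA, hx⟩
    rw [hAE] at this
    simp at this
  rcases hC with rfl | hC <;> rcases hD with rfl | hD
  · rw [inter_self] at hCD
    exact absurd hCD hA0
  · exact key D hD hCD
  · rw [inter_comm] at hCD
    exact key C hC hCD
  · have := h.1 C hC D hD
    rw [hCD] at this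
    simp at this

/-- The criterion: a matching is shattered if no choice of one element from every pair is a member
of `F`. -/
theorem shatters_of (hn : 1 ≤ n) {F : Set (Finset (Fin n))} (h : MaxIntersecting F) {k : ℕ}
    {a b : Fin k → Fin n} (hM : IsMatching a b)
    (hT : ∀ c : Fin k → Bool, (univ.image fun i => if c i then a i else b i) ∉ F) :
    Shatters F a b := by
  intro c
  have h1 := compl_mem hn h (hT fun i => !(c i))
  refine ⟨_, h1, ?_⟩
  have hab : ∀ i j, a i ≠ b j := by
    intro i j hij
    have := @hM (Sum.inl i) (Sum.inr j) hij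
    simp at this
  have ha : ∀ i j, a i = a j → i = j := by
    intro i j hij
    have := @hM (Sum.inl i) (Sum.inl j) hij
    simpa using this
  have hb : ∀ i j, b i = b j → i = j := by
    intro i j hij
    have := @hM (Sum.inr i) (Sum.inr j) hij
    simpa using this
  ext x
  simp only [mem_inter, mem_compl, mem_image, mem_univ, true_and, mem_union, not_exists]
  constructor
  · rintro ⟨h2, ⟨i, rfl⟩ | ⟨i, rfl⟩⟩
    · refine ⟨i, ?_⟩
      have := h2 i
      cases hc : c i
      · simp [hc] at this
      · simp
    · refine ⟨i, ?_⟩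
      have := h2 i
      cases hc : c i
      · simp
      · simp [hc] at this
  · rintro ⟨i, rfl⟩
    refine ⟨?_, ?_⟩
    · intro j hj
      cases hc : c i <;> cases hc' : c j <;> simp only [hc, hc'] at hj
      · exact absurd hj (by simpa using hab j i)
      · have := hb j i (by simpa using hj)
        rw [this, hc] at hc'
        simp at hc'
      · have := ha j i (by simpa using hj)
        rw [this, hc] at hc'
        simp at hc'
      · exact absurd hj (by simpa using (hab i j).symm)
    · cases hc : c i
      · right; exact ⟨i, by simp⟩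
      · left; exact ⟨i, by simp⟩

/-- A matching of size `t` inside a set with at least `2t` elements. -/
theorem exists_matching {t : ℕ} (W : Finset (Fin n)) (hW : 2 * t ≤ W.card) :
    ∃ a b : Fin t → Fin n, IsMatching a b ∧ (∀ i, a i ∈ W) ∧ ∀ i, b i ∈ W := by
  have h1 : Fintype.card (Fin t ⊕ Fin t) ≤ Fintype.card W := by
    simp only [Fintype.card_sum, Fintype.card_fin, Fintype.card_coe]
    omega
  obtain ⟨f⟩ := Function.Embedding.nonempty_of_card_le h1
  refine ⟨fun i => (f (Sum.inl i)).1, fun i => (f (Sum.inr i)).1, ?_, fun i => (f _).2,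
    fun i => (f _).2⟩
  intro x y hxy
  apply f.injective
  apply Subtype.ext
  rcases x with x | x <;> rcases y with y | y <;> exact hxy

/-- The lower bound. -/
theorem good_third (hn : 1 ≤ n) : Good n (n / 3) := by
  intro F h
  classical
  let t := n / 3
  have ht : 3 * t ≤ n := Nat.mul_div_le n 3
  -- a member of minimum size
  obtain ⟨A, hA, hmin⟩ : ∃ A ∈ F, ∀ B ∈ F, A.card ≤ B.card := by
    let P : ℕ → Prop := fun m => ∃ A ∈ F, A.card = m
    have hP : ∃ m, P m := ⟨_, univ, univ_mem hn h, rfl⟩
    obtain ⟨A, hA, hc⟩ := Nat.find_spec hP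
    refine ⟨A, hA, fun B hB => ?_⟩
    rw [hc]
    exact Nat.find_min' hP ⟨B, hB, rfl⟩
  by_cases hs : A.card ≤ t
  · -- match inside the complement of `A`
    obtain ⟨a, b, hM, ha, hb⟩ := exists_matching (t := t) Aᶜ (by
      rw [card_compl, Fintype.card_fin]
      omega)
    refine ⟨a, b, hM, shatters_of hn h hM fun c hc => ?_⟩
    have := h.1 _ hc A hA
    obtain ⟨x, hx⟩ := this
    rw [mem_inter, mem_image] at hx
    obtain ⟨⟨i, -, rfl⟩, hx2⟩ := hx
    have h1 := ha i
    have h2 := hb i
    rw [mem_compl] at h1 h2
    cases hc : c i <;> simp [hc] at hx2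
    · exact h2 hx2
    · exact h1 hx2
  · obtain ⟨a, b, hM, -, -⟩ := exists_matching (t := t) (univ : Finset (Fin n)) (by
      rw [card_univ, Fintype.card_fin]
      omega)
    refine ⟨a, b, hM, shatters_of hn h hM fun c hc => ?_⟩
    have h1 := hmin _ hc
    have h2 : (univ.image fun i => if c i then a i else b i).card ≤ t := by
      refine le_trans card_image_le ?_
      rw [card_univ, Fintype.card_fin]
    omega

end Pool.Agent.R951.SH
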