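import Pool.Agent.R951.SH.Plane

/-!
# Counting partial choices of a matching
-/

set_option autoImplicit false

namespace Pool.Agent.R951.SH

open Finset

variable {n k : ℕ}

/-- the partial choice: `c i = 1` selects `a i`, `c i = 2` selects `b i` -/
def sel (a b : Fin k → Fin n) (c : Fin k → Fin 3) : Finset (Fin n) :=
  (univ.filter fun i => c i = 1).image a ∪ (univ.filter fun i => c i = 2).image b

theorem mem_sel {a b : Fin k → Fin n} {c : Fin k → Fin 3} {x : Fin n} :
    x ∈ sel a b c ↔ ∃ i, (c i = 1 ∧ a i = x) ∨ (c i = 2 ∧ b i = x) := by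
  unfold sel
  simp only [mem_union, mem_image, mem_filter, mem_univ, true_and]
  constructor
  · rintro (⟨i, h1, h2⟩ | ⟨i, h1, h2⟩)
    · exact ⟨i, Or.inl ⟨h1, h2⟩⟩
    · exact ⟨i, Or.inr ⟨h1, h2⟩⟩
  · rintro ⟨i, ⟨h1, h2⟩ | ⟨h1, h2⟩⟩
    · exact Or.inl ⟨i, h1, h2⟩
    · exact Or.inr ⟨i, h1, h2⟩

theorem mat_ab {a b : Fin k → Fin n} (hM : IsMatching a b) (i j : Fin k) : a i ≠ b j := by
  intro hij
  have := @hM (Sum.inl i) (Sum.inr j) hij
  simp at this

theorem mat_a {a b : Fin k → Fin n} (hM : IsMatching a b) {i j : Fin k} (h : a i = a j) :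
    i = j := by
  have := @hM (Sum.inl i) (Sum.inl j) h
  simpa using this

theorem mat_b {a b : Fin k → Fin n} (hM : IsMatching a b) {i j : Fin k} (h : b i = b j) :
    i = j := by
  have := @hM (Sum.inr i) (Sum.inr j) h
  simpa using this

theorem a_mem_sel {a b : Fin k → Fin n} (hM : IsMatching a b) {c : Fin k → Fin 3} (i : Fin k) :
    a i ∈ sel a b c ↔ c i = 1 := by
  rw [mem_sel]
  constructor
  · rintro ⟨j, ⟨h1, h2⟩ | ⟨h1, h2⟩⟩
    · rwa [mat_a hM h2] at h1
    · exact absurd h2.symm (mat_ab hM i j)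
  · intro h
    exact ⟨i, Or.inl ⟨h, rfl⟩⟩

theorem b_mem_sel {a b : Fin k → Fin n} (hM : IsMatching a b) {c : Fin k → Fin 3} (i : Fin k) :
    b i ∈ sel a b c ↔ c i = 2 := by
  rw [mem_sel]
  constructor
  · rintro ⟨j, ⟨h1, h2⟩ | ⟨h1, h2⟩⟩
    · exact absurd h2 (mat_ab hM j i)
    · rwa [mat_b hM h2] at h1
  · intro h
    exact ⟨i, Or.inr ⟨h, rfl⟩⟩

theorem sel_injective {a b : Fin k → Fin n} (hM : IsMatching a b) :
    Function.Injective (sel a b) := by
  intro c d h
  funext i
  have h1 : c i = 1 ↔ d i = 1 := by rw [← a_mem_sel hM, ← a_mem_sel hM, h]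
  have h2 : c i = 2 ↔ d i = 2 := by rw [← b_mem_sel hM, ← b_mem_sel hM, h]
  revert h1 h2
  generalize c i = u
  generalize d i = v
  revert u v
  decide

theorem card_sel {a b : Fin k → Fin n} (hM : IsMatching a b) (c : Fin k → Fin 3) :
    (sel a b c).card = ∑ i, (if c i = 0 then 0 else 1) := by
  unfold sel
  rw [card_union_of_disjoint, card_image_of_injective _ (fun i j h => mat_a hM h),
    card_image_of_injective _ (fun i j h => mat_b hM h), card_filter, card_filter,
    ← sum_add_distrib]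
  · apply sum_congr rfl
    intro i _
    generalize c i = u
    revert u
    decide
  · rw [disjoint_left]
    intro x hx hy
    rw [mem_image] at hx hy
    obtain ⟨i, -, rfl⟩ := hx
    obtain ⟨j, -, h⟩ := hy
    exact mat_ab hM i j h.symm

theorem disjoint_sel {a b : Fin k → Fin n} {c : Fin k → Fin 3} {S : Finset (Fin n)} :
    Disjoint S (sel a b c) ↔ ∀ i, (c i = 1 → a i ∉ S) ∧ (c i = 2 → b i ∉ S) := by
  rw [disjoint_right]
  constructor
  · intro h i
    exact ⟨fun h1 => h (mem_sel.mpr ⟨i, Or.inl ⟨h1, rfl⟩⟩),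
      fun h1 => h (mem_sel.mpr ⟨i, Or.inr ⟨h1, rfl⟩⟩)⟩
  · intro h x hx
    obtain ⟨i, ⟨h1, rfl⟩ | ⟨h1, rfl⟩⟩ := mem_sel.mp hx
    · exact (h i).1 h1
    · exact (h i).2 h1

theorem sel_subset {a b : Fin k → Fin n} (c : Fin k → Fin 3) :
    sel a b c ⊆ univ.image fun i => if (decide (c i = 1)) then a i else b i := by
  intro x hx
  obtain ⟨i, ⟨h1, rfl⟩ | ⟨h1, rfl⟩⟩ := mem_sel.mp hx
  · exact mem_image.mpr ⟨i, mem_univ _, by simp [h1]⟩
  · exact mem_image.mpr ⟨i, mem_univ _, by simp [h1]⟩

/-- product formula -/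
theorem sum_prod_fin3 (f : Fin k → Fin 3 → ℝ) :
    ∑ c : Fin k → Fin 3, ∏ i, f i (c i) = ∏ i, (f i 0 + f i 1 + f i 2) := by
  have h := Finset.prod_univ_sum (fun _ : Fin k => (univ : Finset (Fin 3))) f
  rw [Fintype.piFinset_univ] at h
  rw [← h]
  apply prod_congr rfl
  intro i _
  rw [Fin.sum_univ_three]

theorem sum_half (a b : Fin k → Fin n) (hM : IsMatching a b) :
    ∑ c : Fin k → Fin 3, (1 / 2 : ℝ) ^ (sel a b c).card = 2 ^ k := by
  have h1 : ∀ c : Fin k → Fin 3, (1 / 2 : ℝ) ^ (sel a b c).card =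
      ∏ i, (fun (_ : Fin k) (u : Fin 3) => if u = 0 then (1 : ℝ) else 1 / 2) i (c i) := by
    intro c
    rw [card_sel hM, ← Finset.prod_pow_eq_pow_sum]
    apply prod_congr rfl
    intro i _
    by_cases h : c i = 0 <;> simp [h]
  rw [sum_congr rfl fun c _ => h1 c,
    sum_prod_fin3 (fun (_ : Fin k) (u : Fin 3) => if u = 0 then (1 : ℝ) else 1 / 2)]
  have e1 : (1 : Fin 3) ≠ 0 := by decide
  have e2 : (2 : Fin 3) ≠ 0 := by decide
  simp only [if_neg e1, if_neg e2, if_true]
  norm_num

/-- few partial choices are small -/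
theorem small_sel (a b : Fin k → Fin n) (hM : IsMatching a b) (m : ℕ) :
    ((univ.filter fun c : Fin k → Fin 3 => (sel a b c).card < m).card : ℝ) ≤ 2 ^ (m + k) := by
  have h1 : ((univ.filter fun c : Fin k → Fin 3 => (sel a b c).card < m).card : ℝ) ≤
      ∑ c : Fin k → Fin 3, 2 ^ m * (1 / 2 : ℝ) ^ (sel a b c).card := by
    rw [card_filter]
    push_cast
    apply sum_le_sum
    intro c _
    split_ifs with h
    · have e : (2 : ℝ) ^ m = 2 ^ (m - (sel a b c).card) * 2 ^ (sel a b c).card := by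
        rw [← pow_add]; congr 1; omega
      rw [e, mul_assoc, ← mul_pow]
      norm_num
      exact one_le_pow₀ (by norm_num)
    · positivity
  rw [← mul_sum, sum_half a b hM, ← pow_add] at h1
  exact h1

theorem card_choices (a b : Fin k → Fin n) (m : ℕ) :
    (univ.filter fun c : Fin k → Fin 3 => (sel a b c).card < m).card +
      (univ.filter fun c : Fin k → Fin 3 => m ≤ (sel a b c).card).card = 3 ^ k := by
  have h := Finset.card_filter_add_card_filter_not (s := (univ : Finset (Fin k → Fin 3)))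
    (fun c => (sel a b c).card < m)
  simp only [not_lt] at h
  rw [h]
  simp

/-- the sum over all sets of the number of disjoint partial choices -/
theorem sum_disjoint (a b : Fin k → Fin n) (hM : IsMatching a b) :
    ∑ S : Finset (Fin n), ((univ.filter fun c : Fin k → Fin 3 => Disjoint S (sel a b c)).card : ℝ)
      = 2 ^ (n + k) := by
  have h1 : ∑ S : Finset (Fin n),
      ((univ.filter fun c : Fin k → Fin 3 => Disjoint S (sel a b c)).card : ℝ) =
      ∑ c : Fin k → Fin 3, ((univ.filter fun S : Finset (Fin n) => Disjoint S (sel a b c)).card : ℝ)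
      := by
    simp only [card_filter]
    push_cast
    rw [sum_comm]
  rw [h1]
  have h2 : ∀ c : Fin k → Fin 3,
      ((univ.filter fun S : Finset (Fin n) => Disjoint S (sel a b c)).card : ℝ) =
      2 ^ n * (1 / 2 : ℝ) ^ (sel a b c).card := by
    intro c
    have h3 : (univ.filter fun S : Finset (Fin n) => Disjoint S (sel a b c)) =
        ((sel a b c)ᶜ).powerset := by
      ext S
      simp only [mem_filter, mem_univ, true_and, mem_powerset]
      rw [← le_compl_iff_disjoint_right]
    rw [h3, card_powerset, card_compl, Fintype.card_fin]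
    have hle : (sel a b c).card ≤ n := by
      have := card_le_univ (sel a b c)
      simpa using this
    have e : (2 : ℝ) ^ n = 2 ^ (n - (sel a b c).card) * 2 ^ (sel a b c).card := by
      rw [← pow_add]; congr 1; omega
    rw [e, mul_assoc, ← mul_pow]
    norm_num
  simp_rw [h2]
  rw [← mul_sum, sum_half a b hM, ← pow_add]

/-- a large set is disjoint from few partial choices -/
theorem disjoint_bound (a b : Fin k → Fin n) (hM : IsMatching a b) (l : ℕ) (S : Finset (Fin n))
    (hS : n - 2 * k + l ≤ S.card) :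
    ((univ.filter fun c : Fin k → Fin 3 => Disjoint S (sel a b c)).card : ℝ) ≤
      3 ^ k * (2 / 3 : ℝ) ^ l := by
  classical
  have h1 : ((univ.filter fun c : Fin k → Fin 3 => Disjoint S (sel a b c)).card : ℝ) =
      ∑ c : Fin k → Fin 3, ∏ i, (fun (i : Fin k) (u : Fin 3) =>
        if (u = 1 → a i ∉ S) ∧ (u = 2 → b i ∉ S) then (1 : ℝ) else 0) i (c i) := by
    rw [card_filter]
    push_cast
    apply sum_congr rfl
    intro c _
    by_cases h : Disjoint S (sel a b c)
    · rw [if_pos h]
      rw [disjoint_sel] at h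
      symm
      apply prod_eq_one
      intro i _
      exact if_pos (h i)
    · rw [if_neg h]
      rw [disjoint_sel] at h
      symm
      push Not at h
      obtain ⟨i, hi⟩ := h
      apply prod_eq_zero (mem_univ i)
      apply if_neg
      intro hc
      obtain ⟨h2, h3⟩ := hi hc.1
      exact hc.2 h2 h3
  rw [h1, sum_prod_fin3 (fun (i : Fin k) (u : Fin 3) =>
        if (u = 1 → a i ∉ S) ∧ (u = 2 → b i ∉ S) then (1 : ℝ) else 0)]
  -- number of elements of `S` in the pairs
  have h2 : l ≤ ∑ i : Fin k, ((if a i ∈ S then 1 else 0) + (if b i ∈ S then 1 else 0)) := by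
    have h3 : S ⊆ (univ.image a ∪ univ.image b)ᶜ ∪
        ((univ.filter fun i => a i ∈ S).image a ∪ (univ.filter fun i => b i ∈ S).image b) := by
      intro x hx
      by_cases h : x ∈ univ.image a ∪ univ.image b
      · apply mem_union_right
        rcases mem_union.mp h with h | h
        · obtain ⟨i, -, rfl⟩ := mem_image.mp h
          exact mem_union_left _ (mem_image.mpr ⟨i, mem_filter.mpr ⟨mem_univ _, hx⟩, rfl⟩)
        · obtain ⟨i, -, rfl⟩ := mem_image.mp h
          exact mem_union_right _ (mem_image.mpr ⟨i, mem_filter.mpr ⟨mem_univ _, hx⟩, rfl⟩)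
      · exact mem_union_left _ (mem_compl.mpr h)
    have h4 := card_le_card h3
    have h5 := card_union_le (univ.image a ∪ univ.image b)ᶜ
      ((univ.filter fun i => a i ∈ S).image a ∪ (univ.filter fun i => b i ∈ S).image b)
    have h6 := card_union_le ((univ.filter fun i => a i ∈ S).image a)
      ((univ.filter fun i => b i ∈ S).image b)
    have h7 : ((univ.filter fun i => a i ∈ S).image a).card ≤ _ := card_image_le
    have h8 : ((univ.filter fun i => b i ∈ S).image b).card ≤ _ := card_image_le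
    rw [card_compl_image hM] at h5
    rw [card_filter] at h7 h8
    rw [sum_add_distrib]
    omega
  calc ∏ i : Fin k, ((if ((0 : Fin 3) = 1 → a i ∉ S) ∧ ((0 : Fin 3) = 2 → b i ∉ S) then (1 : ℝ) else 0) +
        (if ((1 : Fin 3) = 1 → a i ∉ S) ∧ ((1 : Fin 3) = 2 → b i ∉ S) then (1 : ℝ) else 0) +
        (if ((2 : Fin 3) = 1 → a i ∉ S) ∧ ((2 : Fin 3) = 2 → b i ∉ S) then (1 : ℝ) else 0))
      ≤ ∏ i : Fin k, (3 * (2 / 3 : ℝ) ^ ((if a i ∈ S then 1 else 0) + (if b i ∈ S then 1 else 0))) := by
        apply prod_le_prod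
        · intro i _
          positivity
        · intro i _
          by_cases h3 : a i ∈ S <;> by_cases h4 : b i ∈ S <;> simp [h3, h4] <;> norm_num
    _ = 3 ^ k * (2 / 3 : ℝ) ^ (∑ i : Fin k, ((if a i ∈ S then 1 else 0) + (if b i ∈ S then 1 else 0))) := by
        rw [prod_mul_distrib, Finset.prod_pow_eq_pow_sum]
        simp
    _ ≤ 3 ^ k * (2 / 3 : ℝ) ^ l := by
        apply mul_le_mul_of_nonneg_left _ (by positivity)
        exact pow_le_pow_of_le_one (by norm_num) (by norm_num) h2

end Pool.Agent.R951.SH
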