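import Mathlib

/-!
# A greedy choice of a conflict-free family meeting many sets
-/

set_option autoImplicit false

namespace Pool.Agent.R951.SH.Greedy

open Finset

variable {Ω ι : Type*} [DecidableEq Ω] [Fintype Ω] [Fintype ι]

section
variable (conf : Ω → Ω → Prop) [DecidableRel conf] (T : ι → Finset Ω) (x : ℝ)

/-- number of elements of `T M` in conflict with `S` -/
def kc (M : ι) (S : Ω) : ℝ := (((T M).filter (conf S)).card : ℝ)

noncomputable def y (M : ι) (S : Ω) : ℝ := kc conf T M S / (x * (T M).card)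

def kap (A : Finset Ω) (M : ι) : ℝ := ∑ S ∈ A, kc conf T M S

noncomputable def w (A : Finset Ω) (M : ι) : ℝ := ∏ S ∈ A, (1 + y conf T x M S)

open Classical in
noncomputable def I (A : Finset Ω) (M : ι) : ℝ :=
  if (∀ S ∈ A, S ∉ T M) ∧ kap conf T A M ≤ (T M).card / 2 then 1 else 0

def upd (A : Finset Ω) (S : Ω) : Finset Ω := if ∀ a ∈ A, ¬ conf a S then insert S A else A

lemma kc_nonneg (M : ι) (S : Ω) : 0 ≤ kc conf T M S := by unfold kc; positivity

lemma y_nonneg (hx : 0 < x) (M : ι) (S : Ω) : 0 ≤ y conf T x M S := by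
  unfold y
  have := kc_nonneg conf T M S
  positivity

lemma subset_upd (A : Finset Ω) (S : Ω) : A ⊆ upd conf A S := by
  unfold upd
  split_ifs
  · exact subset_insert _ _
  · exact Subset.refl _

lemma kap_mono {A B : Finset Ω} (h : A ⊆ B) (M : ι) : kap conf T A M ≤ kap conf T B M :=
  sum_le_sum_of_subset_of_nonneg h fun S _ _ => kc_nonneg conf T M S

lemma I_nonneg (A : Finset Ω) (M : ι) : 0 ≤ I conf T A M := by
  unfold I; split_ifs <;> norm_num

lemma I_le_one (A : Finset Ω) (M : ι) : I conf T A M ≤ 1 := by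
  unfold I; split_ifs <;> norm_num

lemma I_zero {A B : Finset Ω} (h : A ⊆ B) (M : ι) (h0 : I conf T A M = 0) :
    I conf T B M = 0 := by
  unfold I at *
  rw [if_neg]
  intro ⟨h1, h2⟩
  rw [if_pos] at h0
  · norm_num at h0
  · exact ⟨fun S hS => h1 S (h hS), le_trans (kap_mono conf T h M) h2⟩

lemma w_pos (hx : 0 < x) (A : Finset Ω) (M : ι) : 0 < w conf T x A M :=
  prod_pos fun S _ => by have := y_nonneg conf T x hx M S; linarith

lemma w_upd (hx : 0 < x) (A : Finset Ω) (M : ι) (S : Ω) :
    w conf T x (upd conf A S) M ≤ w conf T x A M * (1 + y conf T x M S) := by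
  have h1 := w_pos conf T x hx A M
  have h2 := y_nonneg conf T x hx M S
  unfold upd
  split_ifs
  · by_cases hS : S ∈ A
    · rw [insert_eq_of_mem hS]
      nlinarith
    · unfold w
      rw [prod_insert hS, mul_comm]
  · nlinarith

/-- the sum of the indicators -/
lemma sum_I (t : ℝ) (hT : ∀ M, t ≤ (T M).card) (A : Finset Ω) (M : ι) :
    ∑ S, I conf T (upd conf A S) M ≤ (Fintype.card Ω - t / 2) * I conf T A M := by
  by_cases h0 : I conf T A M = 0
  · rw [h0, mul_zero]
    apply le_of_eq
    exact sum_eq_zero fun S _ => I_zero conf T (subset_upd conf A S) M h0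
  · have h1 : (∀ S ∈ A, S ∉ T M) ∧ kap conf T A M ≤ (T M).card / 2 := by
      by_contra hc
      apply h0
      unfold I
      rw [if_neg hc]
    have hI : I conf T A M = 1 := by unfold I; rw [if_pos h1]
    rw [hI, mul_one]
    classical
    -- the unkilled elements
    let B : Finset Ω := (T M).filter fun S => ∀ a ∈ A, ¬ conf a S
    have hB : ((T M).card : ℝ) / 2 ≤ B.card := by
      have h2 : (T M) \ B ⊆ A.biUnion fun a => (T M).filter (conf a) := by
        intro S hS
        rw [mem_sdiff] at hS
        have hn : ¬ ∀ a ∈ A, ¬ conf a S := fun h => hS.2 (mem_filter.mpr ⟨hS.1, h⟩)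
        push Not at hn
        obtain ⟨a, ha, hc⟩ := hn
        exact mem_biUnion.mpr ⟨a, ha, mem_filter.mpr ⟨hS.1, hc⟩⟩
      have h3 : (((T M) \ B).card : ℝ) ≤ kap conf T A M := by
        have := (card_le_card h2).trans card_biUnion_le
        unfold kap kc
        exact_mod_cast this
      have h4 : ((T M) \ B).card + B.card = (T M).card :=
        card_sdiff_add_card_eq_card (filter_subset _ _)
      have h5 : (((T M) \ B).card : ℝ) + B.card = (T M).card := by exact_mod_cast h4
      linarith [h1.2]
    have hz : ∀ S ∈ B, I conf T (upd conf A S) M = 0 := by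
      intro S hS
      have hS' := mem_filter.mp hS
      unfold I
      rw [if_neg]
      intro hc
      have : S ∈ upd conf A S := by
        unfold upd
        rw [if_pos hS'.2]
        exact mem_insert_self _ _
      exact hc.1 S this hS'.1
    have h6 : ∑ S, I conf T (upd conf A S) M = ∑ S ∈ univ \ B, I conf T (upd conf A S) M := by
      rw [← sum_sdiff (subset_univ B), sum_eq_zero hz, add_zero]
    rw [h6]
    calc ∑ S ∈ univ \ B, I conf T (upd conf A S) M ≤ ∑ S ∈ univ \ B, (1 : ℝ) :=
          sum_le_sum fun S _ => I_le_one conf T _ M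
      _ = ((univ \ B).card : ℝ) := by simp
      _ = Fintype.card Ω - B.card := by
          have := card_sdiff_add_card_eq_card (subset_univ B)
          have h7 : (((univ \ B).card : ℕ) : ℝ) + B.card = (Fintype.card Ω : ℝ) := by
            exact_mod_cast this
          linarith
      _ ≤ _ := by have := hT M; linarith

end

theorem exists_family (conf : Ω → Ω → Prop) [DecidableRel conf]
    (hsym : ∀ a b, conf a b → conf b a) (hirr : ∀ a, ¬ conf a a)
    (T : ι → Finset Ω) (t x ρ : ℝ) (N : ℕ) (ht : 0 < t) (hx : 0 < x) (hρ : 0 ≤ ρ)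
    (hT : ∀ M, t ≤ (T M).card)
    (hmax : ∀ M S', (((T M).filter (conf S')).card : ℝ) ≤ x * (T M).card)
    (havg : ∀ M, ∑ S' : Ω, (((T M).filter (conf S')).card : ℝ) ≤
      ρ * (Fintype.card Ω) * (T M).card)
    (hfin : (Fintype.card ι : ℝ) * ((1 - t / (2 * Fintype.card Ω)) ^ N +
      (2 : ℝ) ^ (-(1 / (2 * x))) * (1 + ρ / x) ^ N) < 1) :
    ∃ A : Finset Ω, (∀ a ∈ A, ∀ b ∈ A, ¬ conf a b) ∧ ∀ M, ∃ S ∈ A, S ∈ T M := by
  classical
  rcases isEmpty_or_nonempty ι with hι | hι
  · exact ⟨∅, by simp, fun M => (hι.false M).elim⟩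
  obtain ⟨M0⟩ := hι
  have hC : 0 < (Fintype.card Ω : ℝ) := by
    have h1 := hT M0
    have h2 : ((T M0).card : ℝ) ≤ Fintype.card Ω := by exact_mod_cast card_le_univ _
    linarith
  have htC : t ≤ Fintype.card Ω := by
    have h1 := hT M0
    have h2 : ((T M0).card : ℝ) ≤ Fintype.card Ω := by exact_mod_cast card_le_univ _
    linarith
  have : Nonempty Ω := by
    by_contra h
    rw [not_nonempty_iff] at h
    simp at hC
  set q : ℝ := 1 - t / (2 * Fintype.card Ω) with hq
  have hq0 : 0 ≤ q := by
    have : t / (2 * Fintype.card Ω) ≤ 1 := by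
      rw [div_le_one (by positivity)]; linarith
    linarith
  have hCq : (Fintype.card Ω : ℝ) * q = Fintype.card Ω - t / 2 := by
    rw [hq]; field_simp
  set c : ℝ := (2 : ℝ) ^ (-(1 / (2 * x))) with hc
  have hc0 : 0 < c := Real.rpow_pos_of_pos (by norm_num) _
  have hE : 0 ≤ ρ / x := by positivity
  let Φ : Finset Ω → ℕ → ℝ := fun A j =>
    ∑ M, (I conf T A M * q ^ j + c * w conf T x A M * (1 + ρ / x) ^ j)
  -- sum of `y`
  have hy : ∀ M, ∑ S, y conf T x M S ≤ Fintype.card Ω * (ρ / x) := by
    intro M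
    have hTM : 0 < ((T M).card : ℝ) := lt_of_lt_of_le ht (hT M)
    unfold y kc
    rw [← sum_div, div_le_iff₀ (by positivity)]
    refine le_trans (havg M) (le_of_eq ?_)
    field_simp
  -- one step
  have step : ∀ (A : Finset Ω) (j : ℕ), (∀ a ∈ A, ∀ b ∈ A, ¬ conf a b) →
      ∃ A' : Finset Ω, (∀ a ∈ A', ∀ b ∈ A', ¬ conf a b) ∧ Φ A' j ≤ Φ A (j + 1) := by
    intro A j hA
    have hsum : ∑ S : Ω, Φ (upd conf A S) j ≤ ∑ _S : Ω, Φ A (j + 1) := by
      rw [sum_const, card_univ, nsmul_eq_mul]
      simp only [Φ]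
      rw [sum_comm, mul_sum]
      apply sum_le_sum
      intro M _
      rw [sum_add_distrib, ← sum_mul, ← sum_mul, ← mul_sum]
      have h1 := sum_I conf T t hT A M
      rw [← hCq] at h1
      have h2 : ∑ S, w conf T x (upd conf A S) M ≤
          w conf T x A M * (Fintype.card Ω * (1 + ρ / x)) := by
        calc ∑ S, w conf T x (upd conf A S) M ≤
            ∑ S, w conf T x A M * (1 + y conf T x M S) :=
              sum_le_sum fun S _ => w_upd conf T x hx A M S
          _ = w conf T x A M * (Fintype.card Ω + ∑ S, y conf T x M S) := by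
              rw [← mul_sum, sum_add_distrib]; simp
          _ ≤ _ := by
              apply mul_le_mul_of_nonneg_left _ (w_pos conf T x hx A M).le
              have := hy M
              linarith
      have h3 : (∑ S, I conf T (upd conf A S) M) * q ^ j ≤
          (Fintype.card Ω * q * I conf T A M) * q ^ j :=
        mul_le_mul_of_nonneg_right h1 (by positivity)
      have h4 : c * (∑ S, w conf T x (upd conf A S) M) * (1 + ρ / x) ^ j ≤
          c * (w conf T x A M * (Fintype.card Ω * (1 + ρ / x))) * (1 + ρ / x) ^ j := by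
        apply mul_le_mul_of_nonneg_right _ (by positivity)
        exact mul_le_mul_of_nonneg_left h2 hc0.le
      calc (∑ S, I conf T (upd conf A S) M) * q ^ j +
            c * (∑ S, w conf T x (upd conf A S) M) * (1 + ρ / x) ^ j
          ≤ (Fintype.card Ω * q * I conf T A M) * q ^ j +
            c * (w conf T x A M * (Fintype.card Ω * (1 + ρ / x))) * (1 + ρ / x) ^ j :=
            add_le_add h3 h4
        _ = _ := by ring
    obtain ⟨S, -, hS⟩ := exists_le_of_sum_le univ_nonempty hsum
    refine ⟨upd conf A S, ?_, hS⟩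
    unfold upd
    split_ifs with hcf
    · intro a ha b hb
      rcases mem_insert.mp ha with ha' | ha' <;> rcases mem_insert.mp hb with hb' | hb'
      · rw [ha', hb']; exact hirr _
      · rw [ha']; exact fun h => hcf b hb' (hsym _ _ h)
      · rw [hb']; exact hcf a ha'
      · exact hA a ha' b hb'
    · exact hA
  have all : ∀ j ≤ N, ∃ A : Finset Ω, (∀ a ∈ A, ∀ b ∈ A, ¬ conf a b) ∧ Φ A (N - j) ≤ Φ ∅ N := by
    intro j
    induction j with
    | zero => intro _; exact ⟨∅, by simp, le_of_eq rfl⟩
    | succ j ih =>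
      intro hj
      obtain ⟨A, hA, hΦ⟩ := ih (by omega)
      have e : N - j = (N - (j + 1)) + 1 := by omega
      rw [e] at hΦ
      obtain ⟨A', hA', h'⟩ := step A _ hA
      exact ⟨A', hA', h'.trans hΦ⟩
  obtain ⟨A, hA, hΦ⟩ := all N le_rfl
  refine ⟨A, hA, fun M => ?_⟩
  have h0 : Φ ∅ N ≤ (Fintype.card ι : ℝ) * (q ^ N + c * (1 + ρ / x) ^ N) := by
    simp only [Φ]
    calc ∑ M, (I conf T ∅ M * q ^ N + c * w conf T x ∅ M * (1 + ρ / x) ^ N)
        ≤ ∑ _M : ι, (q ^ N + c * (1 + ρ / x) ^ N) := by
          apply sum_le_sum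
          intro M _
          have h1 := I_le_one conf T ∅ M
          have h2 : w conf T x ∅ M = 1 := by simp [w]
          rw [h2, mul_one]
          have h3 : I conf T ∅ M * q ^ N ≤ 1 * q ^ N :=
            mul_le_mul_of_nonneg_right h1 (by positivity)
          linarith
      _ = _ := by rw [sum_const, card_univ, nsmul_eq_mul]
  have h1 : Φ A 0 < 1 := by
    rw [Nat.sub_self] at hΦ
    linarith
  have h2 : I conf T A M + c * w conf T x A M < 1 := by
    refine lt_of_le_of_lt ?_ h1
    have h3 : ∀ M', 0 ≤ I conf T A M' * q ^ 0 + c * w conf T x A M' * (1 + ρ / x) ^ 0 := by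
      intro M'
      have := I_nonneg conf T A M'
      have := w_pos conf T x hx A M'
      positivity
    have h4 := single_le_sum (f := fun M' => I conf T A M' * q ^ 0 +
      c * w conf T x A M' * (1 + ρ / x) ^ 0) (fun M' _ => h3 M') (mem_univ M)
    simpa [Φ] using h4
  have hw : c * w conf T x A M < 1 := by
    have := I_nonneg conf T A M
    linarith
  have hcw : 0 < c * w conf T x A M := mul_pos hc0 (w_pos conf T x hx A M)
  -- the killed part is small
  have hTM : 0 < ((T M).card : ℝ) := lt_of_lt_of_le ht (hT M)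
  have hsy : ∑ S ∈ A, y conf T x M S < 1 / (2 * x) := by
    have h5 : (2 : ℝ) ^ (∑ S ∈ A, y conf T x M S) ≤ w conf T x A M := by
      rw [Real.rpow_sum_of_pos (by norm_num)]
      unfold w
      apply prod_le_prod
      · intro S _; positivity
      · intro S _
        have h6 := y_nonneg conf T x hx M S
        have h7 : y conf T x M S ≤ 1 := by
          unfold y
          rw [div_le_one (by positivity)]
          exact hmax M S
        have h8 := rpow_one_add_le_one_add_mul_self (s := 1) (by norm_num) h6 h7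
        rw [mul_one] at h8
        have e : (1 : ℝ) + 1 = 2 := by norm_num
        rwa [e] at h8
    have h9 : w conf T x A M < (2 : ℝ) ^ (1 / (2 * x)) := by
      have e : c = ((2 : ℝ) ^ (1 / (2 * x)))⁻¹ := by
        rw [hc, Real.rpow_neg (by norm_num)]
      rw [e] at hw
      have hp : 0 < (2 : ℝ) ^ (1 / (2 * x)) := Real.rpow_pos_of_pos (by norm_num) _
      rw [inv_mul_lt_iff₀ hp] at hw
      linarith
    have h10 : (2 : ℝ) ^ (∑ S ∈ A, y conf T x M S) < (2 : ℝ) ^ (1 / (2 * x)) :=
      lt_of_le_of_lt h5 h9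
    exact (Real.rpow_lt_rpow_left_iff (by norm_num)).mp h10
  have hk : kap conf T A M ≤ (T M).card / 2 := by
    have h11 : ∑ S ∈ A, y conf T x M S = kap conf T A M / (x * (T M).card) := by
      unfold y kap
      rw [sum_div]
    rw [h11, div_lt_div_iff₀ (by positivity) (by positivity)] at hsy
    have h12 : kap conf T A M * (2 * x) < 1 * (x * (T M).card) := hsy
    have h13 : (kap conf T A M * 2) * x < ((T M).card : ℝ) * x := by linarith
    have h14 := lt_of_mul_lt_mul_right h13 hx.le
    linarith
  by_contra hcon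
  push Not at hcon
  have : I conf T A M = 1 := by
    unfold I
    rw [if_pos ⟨hcon, hk⟩]
  linarith

end Pool.Agent.R951.SH.Greedy
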