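import Pool.Agent.R951.SH.Plane

/-!
# MP_5c4cbf_co: bounds for `k*(n)`
-/

set_option autoImplicit false

namespace Pool.Agent.R951.SH

open Finset Configuration
open scoped LinearAlgebra.Projectivization

variable {n : ℕ}

/-- The upper bound from the plane over a finite field with `q` elements. -/
theorem field_bound {q : ℕ} (hq : IsPrimePow q) (hn : q ^ 2 + q + 1 ≤ n) {k : ℕ} (hk : Good n k) :
    q ^ 2 + q + 1 ≤ (2 * q + 1) * (n - 2 * k) := by
  classical
  obtain ⟨p, r, hp, hr, rfl⟩ := hq
  have hpp : p.Prime := hp.nat_prime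
  have : Fact p.Prime := ⟨hpp⟩
  let K := GaloisField p r
  have : Finite K := inferInstance
  have hcK : Nat.card K = p ^ r := GaloisField.card p r (by omega)
  have : Fintype (ℙ K (Fin 3 → K)) := Fintype.ofFinite _
  have hc : Nat.card (ℙ K (Fin 3 → K)) = ∑ i ∈ Finset.range 3, Nat.card K ^ i :=
    Projectivization.card_of_finrank K (Fin 3 → K) (by simp)
  have hc2 : Fintype.card (ℙ K (Fin 3 → K)) = (p ^ r) ^ 2 + p ^ r + 1 := by
    rw [← Nat.card_eq_fintype_card, hc, hcK]
    simp [Finset.sum_range_succ]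
    ring
  have ho : ProjectivePlane.order (ℙ K (Fin 3 → K)) (ℙ K (Fin 3 → K)) = p ^ r := by
    have h1 := ProjectivePlane.card_points (ℙ K (Fin 3 → K)) (ℙ K (Fin 3 → K))
    rw [hc2] at h1
    set o := ProjectivePlane.order (ℙ K (Fin 3 → K)) (ℙ K (Fin 3 → K))
    rcases lt_trichotomy o (p ^ r) with h | h | h
    · nlinarith
    · exact h
    · nlinarith
  have he : Nonempty (ℙ K (Fin 3 → K) ↪ Fin n) := by
    apply Function.Embedding.nonempty_of_card_le
    rw [hc2, Fintype.card_fin]
    exact hn
  obtain ⟨e⟩ := he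
  have := plane_bound (L := ℙ K (Fin 3 → K)) e hk
  rwa [ho] at this

/-- The trivial upper bound. -/
theorem dict_bound (hn : 1 ≤ n) {k : ℕ} (hk : Good n k) : 2 * k + 1 ≤ n := by
  classical
  let x : Fin n := ⟨0, hn⟩
  have hF : MaxIntersecting {A : Finset (Fin n) | x ∈ A} := by
    refine ⟨fun A hA B hB => ⟨x, mem_inter.mpr ⟨hA, hB⟩⟩, fun S hS hI => ?_⟩
    have h1 := hI S (Set.mem_insert _ _) {x} (Set.mem_insert_of_mem _ (by simp))
    obtain ⟨y, hy⟩ := h1
    rw [mem_inter, mem_singleton] at hy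
    obtain ⟨hy1, rfl⟩ := hy
    exact hS hy1
  obtain ⟨a, b, hM, hS⟩ := hk _ hF
  have hab : ∀ i j, a i ≠ b j := by
    intro i j hij
    have := @hM (Sum.inl i) (Sum.inr j) hij
    simp at this
  have hx : x ∉ univ.image (Sum.elim a b) := by
    intro hx
    rw [mem_image] at hx
    obtain ⟨i, -, hi⟩ := hx
    rcases i with i | i
    · obtain ⟨A, hA, hAU⟩ := hS fun _ => false
      have h1 : x ∈ A ∩ (univ.image a ∪ univ.image b) :=
        mem_inter.mpr ⟨hA, mem_union_left _ (mem_image.mpr ⟨i, mem_univ _, hi⟩)⟩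
      rw [hAU, mem_image] at h1
      obtain ⟨j, -, hj⟩ := h1
      simp only [Bool.false_eq_true, if_false] at hj
      exact hab i j (by
        have : a i = x := hi
        rw [this, hj])
    · obtain ⟨A, hA, hAU⟩ := hS fun _ => true
      have h1 : x ∈ A ∩ (univ.image a ∪ univ.image b) :=
        mem_inter.mpr ⟨hA, mem_union_right _ (mem_image.mpr ⟨i, mem_univ _, hi⟩)⟩
      rw [hAU, mem_image] at h1
      obtain ⟨j, -, hj⟩ := h1
      simp only [if_true] at hj
      exact hab j i (by
        have : b i = x := hi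
        rw [this, hj])
  have h1 := card_lt_univ_of_notMem hx
  rw [card_image_of_injective _ hM, Fintype.card_fin] at h1
  simp at h1
  omega

theorem good_kstar (hn : 1 ≤ n) : Good n (kstar n) := by
  have hne : {k | Good n k}.Nonempty := ⟨_, good_third hn⟩
  have hbd : BddAbove {k | Good n k} := ⟨n, fun k hk => by
    have := dict_bound hn hk
    omega⟩
  exact Nat.sSup_mem hne hbd

theorem third_le (hn : 1 ≤ n) : n / 3 ≤ kstar n := by
  have hbd : BddAbove {k | Good n k} := ⟨n, fun k hk => by
    have := dict_bound hn hk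
    omega⟩
  exact le_csSup hbd (good_third hn)

/-- The upper bound for all `n`: `n / 2 - k*(n)` is at least of order `√n`. -/
theorem sqrt_bound (hn : 1 ≤ n) : Nat.sqrt n < 6 * (n - 2 * kstar n) := by
  have hk := good_kstar hn
  have h0 := dict_bound hn hk
  set s := Nat.sqrt n with hs
  have hs1 : s * s ≤ n := Nat.sqrt_le n
  by_cases h3 : s < 3
  · omega
  · push Not at h3
    obtain ⟨p, hp, hp1, hp2⟩ := Nat.exists_prime_lt_and_le_two_mul (s / 3) (by omega)
    have hx : 3 * (s / 3) ≤ s := Nat.mul_div_le s 3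
    have hx2 : s < 3 * (s / 3) + 3 := by omega
    have h4 : p ^ 2 + p + 1 ≤ n := by
      have : p ^ 2 + p + 1 ≤ s * s := by
        nlinarith
      omega
    have h5 := field_bound hp.isPrimePow h4 hk
    have h6 : p ≤ 2 * (n - 2 * kstar n) := by
      by_contra hcon
      push Not at hcon
      set m := n - 2 * kstar n
      nlinarith
    omega

end Pool.Agent.R951.SH
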