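import Pool.Agent.R951.SH.Basic

/-!
# MP_5c4cbf_co: upper bound from projective planes
-/

set_option autoImplicit false

namespace Pool.Agent.R951.SH

open Finset Configuration

variable {n : ℕ}

theorem exists_max {F : Set (Finset (Fin n))} (h : Intersecting F) :
    ∃ G, F ⊆ G ∧ MaxIntersecting G := by
  obtain ⟨G, hFG, hG⟩ := (Set.toFinite {G : Set (Finset (Fin n)) | Intersecting G}).exists_le_maximal h
  refine ⟨G, hFG, hG.prop, fun S hS hI => hS ?_⟩
  have := hG.le_of_ge hI (Set.subset_insert S G)
  exact this (Set.mem_insert S G)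

variable {P L : Type} [Fintype P] [Fintype L] [Membership P L] [ProjectivePlane P L]

open Classical in
/-- The set of the elements of `Fin n` on a line. -/
noncomputable def lineSet (e : P ↪ Fin n) (l : L) : Finset (Fin n) :=
  (univ.filter fun p : P => p ∈ l).map e

omit [ProjectivePlane P L] [Fintype L] in
theorem mem_lineSet (e : P ↪ Fin n) (l : L) (x : Fin n) :
    x ∈ lineSet e l ↔ ∃ p : P, p ∈ l ∧ e p = x := by
  simp [lineSet]

theorem lines_intersecting (e : P ↪ Fin n) :
    Intersecting (Set.range (lineSet (L := L) e)) := by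
  rintro _ ⟨l, rfl⟩ _ ⟨m, rfl⟩
  have h : ∃ p : P, p ∈ l ∧ p ∈ m := by
    by_cases hlm : l = m
    · subst hlm
      have h1 := ProjectivePlane.two_lt_pointCount P l
      have h2 : Nonempty {p : P // p ∈ l} := by
        by_contra hne
        rw [not_nonempty_iff] at hne
        unfold pointCount at h1
        rw [Nat.card_of_isEmpty] at h1
        omega
      obtain ⟨p, hp⟩ := h2
      exact ⟨p, hp, hp⟩
    · exact ⟨HasPoints.mkPoint hlm, HasPoints.mkPoint_ax hlm⟩
  obtain ⟨p, h1, h2⟩ := h
  exact ⟨e p, mem_inter.mpr ⟨(mem_lineSet e l _).mpr ⟨p, h1, rfl⟩,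
    (mem_lineSet e m _).mpr ⟨p, h2, rfl⟩⟩⟩

theorem card_compl_image {k : ℕ} {a b : Fin k → Fin n} (hM : IsMatching a b) :
    ((univ.image a ∪ univ.image b)ᶜ).card = n - 2 * k := by
  have h1 : univ.image a ∪ univ.image b = univ.image (Sum.elim a b) := by
    ext x
    simp
  rw [card_compl, h1, card_image_of_injective _ hM]
  simp
  omega

theorem plane_bound (e : P ↪ Fin n) {k : ℕ} (hk : Good n k) :
    ProjectivePlane.order P L ^ 2 + ProjectivePlane.order P L + 1 ≤
      (2 * ProjectivePlane.order P L + 1) * (n - 2 * k) := by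
  classical
  set q := ProjectivePlane.order P L with hq
  obtain ⟨F, hF, hmax⟩ := exists_max (lines_intersecting (L := L) e)
  obtain ⟨a, b, hM, hS⟩ := hk F hmax
  have hab : ∀ i, a i ≠ b i := by
    intro i hij
    have := @hM (Sum.inl i) (Sum.inr i) hij
    simp at this
  let U : Finset (Fin n) := univ.image a ∪ univ.image b
  let Un : Finset P := univ.filter fun p => e p ∉ U
  let Pr : Finset (Fin k) := univ.filter fun i => ∃ l : L, a i ∈ lineSet e l ∧ b i ∈ lineSet e l
  -- every line contains an unmatched point or a pair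
  have hline : ∀ l : L, (∃ p ∈ Un, p ∈ l) ∨ ∃ i, a i ∈ lineSet e l ∧ b i ∈ lineSet e l := by
    intro l
    by_contra hcon
    push Not at hcon
    obtain ⟨h1, h2⟩ := hcon
    obtain ⟨A, hA, hAU⟩ := hS fun i => decide (a i ∉ lineSet e l)
    obtain ⟨x, hx⟩ := hmax.1 A hA _ (hF ⟨l, rfl⟩)
    rw [mem_inter] at hx
    obtain ⟨p, hp, rfl⟩ := (mem_lineSet e l _).mp hx.2
    by_cases hxU : e p ∈ U
    · have h3 : e p ∈ A ∩ (univ.image a ∪ univ.image b) := mem_inter.mpr ⟨hx.1, hxU⟩
      rw [hAU, mem_image] at h3
      obtain ⟨i, -, hi⟩ := h3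
      by_cases h4 : a i ∉ lineSet e l
      · simp only [h4, not_false_eq_true, decide_true, if_true] at hi
        rw [hi] at h4
        exact h4 hx.2
      · simp only [h4, decide_false, Bool.false_eq_true, if_false] at hi
        rw [not_not] at h4
        apply h2 i h4
        rw [hi]
        exact hx.2
    · exact h1 p (by simp [Un, hxU]) hp
  -- counting the lines
  have hcount : Fintype.card L ≤ Un.card * (q + 1) + Pr.card := by
    have h1 : (univ : Finset L) ⊆ (Un.biUnion fun p => univ.filter fun l : L => p ∈ l) ∪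
        (Pr.biUnion fun i => univ.filter fun l : L => a i ∈ lineSet e l ∧ b i ∈ lineSet e l) := by
      intro l _
      rw [mem_union, mem_biUnion, mem_biUnion]
      rcases hline l with ⟨p, hp, hpl⟩ | ⟨i, hi⟩
      · left
        exact ⟨p, hp, by simpa using hpl⟩
      · right
        exact ⟨i, by simpa [Pr] using ⟨l, hi⟩, by simpa using hi⟩
    have h2 := card_le_card h1
    rw [card_univ] at h2
    refine le_trans h2 (le_trans (card_union_le _ _) ?_)
    apply Nat.add_le_add
    · apply card_biUnion_le_card_mul
      intro p _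
      have h3 := ProjectivePlane.lineCount_eq (L := L) p
      unfold lineCount at h3
      rw [Nat.card_eq_fintype_card, Fintype.card_subtype] at h3
      rw [h3]
    · have h4 : ∀ i ∈ Pr, (univ.filter fun l : L => a i ∈ lineSet e l ∧ b i ∈ lineSet e l).card ≤ 1 := by
        intro i _
        rw [card_le_one]
        intro l hl m hm
        simp only [mem_filter, mem_univ, true_and, mem_lineSet] at hl hm
        obtain ⟨⟨p, hp, hpa⟩, ⟨p', hp', hpb⟩⟩ := hl
        obtain ⟨⟨r, hr, hra⟩, ⟨r', hr', hrb⟩⟩ := hm
        have e1 : p = r := e.injective (hpa.trans hra.symm)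
        have e2 : p' = r' := e.injective (hpb.trans hrb.symm)
        subst e1 e2
        rcases Nondegenerate.eq_or_eq hp hp' hr hr' with h5 | h5
        · exfalso
          subst h5
          exact hab i (hpa.symm.trans hpb)
        · exact h5
      have h5 := card_biUnion_le_card_mul Pr _ 1 h4
      rwa [mul_one] at h5
  -- counting the points
  have hpts : Un.card + 2 * Pr.card ≤ Fintype.card P := by
    have h1 : ∀ i ∈ Pr, ∃ p p' : P, e p = a i ∧ e p' = b i := by
      intro i hi
      simp only [Pr, mem_filter, mem_univ, true_and, mem_lineSet] at hi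
      obtain ⟨l, ⟨p, -, hp⟩, ⟨p', -, hp'⟩⟩ := hi
      exact ⟨p, p', hp, hp'⟩
    have : Nonempty P := ⟨(ProjectivePlane.exists_config (P := P) (L := L)).choose⟩
    choose! f g hf hg using h1
    have hfi : Set.InjOn f (Pr : Set (Fin k)) := by
      intro i hi j hj hij
      have : a i = a j := by rw [← hf i hi, ← hf j hj, hij]
      have := @hM (Sum.inl i) (Sum.inl j) this
      simpa using this
    have hgi : Set.InjOn g (Pr : Set (Fin k)) := by
      intro i hi j hj hij
      have : b i = b j := by rw [← hg i hi, ← hg j hj, hij]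
      have := @hM (Sum.inr i) (Sum.inr j) this
      simpa using this
    have hd : Disjoint (Pr.image f) (Pr.image g) := by
      rw [disjoint_left]
      intro x hx hy
      rw [mem_image] at hx hy
      obtain ⟨i, hi, rfl⟩ := hx
      obtain ⟨j, hj, hij⟩ := hy
      have : a i = b j := by rw [← hf i hi, ← hg j hj, hij]
      have := @hM (Sum.inl i) (Sum.inr j) this
      simp at this
    have hd2 : Disjoint Un (Pr.image f ∪ Pr.image g) := by
      rw [disjoint_left]
      intro x hx hy
      simp only [Un, mem_filter, mem_univ, true_and] at hx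
      rw [mem_union, mem_image, mem_image] at hy
      apply hx
      rcases hy with ⟨i, hi, rfl⟩ | ⟨i, hi, rfl⟩
      · rw [hf i hi]
        exact mem_union_left _ (mem_image_of_mem _ (mem_univ _))
      · rw [hg i hi]
        exact mem_union_right _ (mem_image_of_mem _ (mem_univ _))
    have h2 := card_le_univ (Un ∪ (Pr.image f ∪ Pr.image g))
    rw [card_union_of_disjoint hd2, card_union_of_disjoint hd, card_image_of_injOn hfi,
      card_image_of_injOn hgi] at h2
    omega
  have hun : Un.card ≤ n - 2 * k := by
    rw [← card_compl_image hM, ← card_map e]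
    apply card_le_card
    intro x hx
    rw [mem_map] at hx
    obtain ⟨p, hp, rfl⟩ := hx
    simp only [Un, mem_filter, mem_univ, true_and] at hp
    exact mem_compl.mpr hp
  have hP := ProjectivePlane.card_points P L
  have hL := ProjectivePlane.card_lines P L
  rw [← hq] at hP hL
  rw [hL] at hcount
  rw [hP] at hpts
  have h6 : (2 * q + 1) * Un.card ≤ (2 * q + 1) * (n - 2 * k) := Nat.mul_le_mul_left _ hun
  nlinarith

end Pool.Agent.R951.SH
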