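import Pool.Agent.R951.SH.Count
import Pool.Agent.R951.SH.Greedy
import Pool.Agent.R951.SH.Main

/-!
# The upper bound `13 k*(n) < 6 n` for large `n`
-/

set_option autoImplicit false

namespace Pool.Agent.R951.SH

open Finset

/-- If an intersecting family has, for every matching, a member inside a choice of one element of
every pair, then `k` is not good. -/
theorem not_good_of_family {n k : ℕ} (F : Set (Finset (Fin n))) (hF : Intersecting F)
    (h : ∀ a b : Fin k → Fin n, IsMatching a b → ∃ S ∈ F, ∃ c, sel a b c = S) : ¬ Good n k := by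
  intro hG
  obtain ⟨G, hFG, hmax⟩ := exists_max hF
  obtain ⟨a, b, hM, hS⟩ := hG G hmax
  obtain ⟨S, hSF, c, hc⟩ := h a b hM
  have h1 : (univ.image fun i => if (decide (c i = 1)) then a i else b i) ∈ G :=
    upward hmax (hFG hSF) (hc ▸ sel_subset c)
  obtain ⟨B, hB, hBW⟩ := hS fun i => !(decide (c i = 1))
  obtain ⟨x, hx⟩ := hmax.1 B hB _ h1
  rw [mem_inter, mem_image] at hx
  obtain ⟨hxB, i, -, hxi⟩ := hx
  have h2 : x ∈ B ∩ (univ.image a ∪ univ.image b) := by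
    rw [mem_inter]
    refine ⟨hxB, ?_⟩
    rw [← hxi]
    split_ifs
    · exact mem_union_left _ (mem_image_of_mem _ (mem_univ _))
    · exact mem_union_right _ (mem_image_of_mem _ (mem_univ _))
  rw [hBW, mem_image] at h2
  obtain ⟨j, -, hxj⟩ := h2
  rw [← hxi] at hxj
  by_cases hi : c i = 1 <;> by_cases hj : c j = 1 <;> simp [hi, hj] at hxj
  · exact mat_ab hM i j hxj.symm
  · have := mat_a hM hxj
    rw [this] at hj
    exact hj hi
  · have := mat_b hM hxj
    rw [this] at hj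
    exact hi hj
  · exact mat_ab hM j i hxj

theorem not_good {n k l : ℕ} (hk : 2 * k ≤ n) (hl : 1 ≤ l)
    (h1 : (2 : ℝ) ^ (n - 2 * k + l + k + 1) ≤ 3 ^ k)
    (h2 : (n : ℝ) ^ n * Real.exp (-((9 / 2 : ℝ) ^ k / 2 ^ (n + 7))) < 1 / 2)
    (h3 : (n : ℝ) ^ n * Real.exp (-((3 / 2 : ℝ) ^ l / 10)) < 1 / 2)
    (h4 : (2 : ℝ) ^ (n + 5) ≤ (9 / 2 : ℝ) ^ k) (hn : 1 ≤ n) : ¬ Good n k := by
  classical
  let m := n - 2 * k + l
  let Ω := {S : Finset (Fin n) // m ≤ S.card}
  let ι := {M : (Fin k → Fin n) × (Fin k → Fin n) // IsMatching M.1 M.2}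
  let T : ι → Finset Ω := fun M => univ.filter fun S => ∃ c, sel M.1.1 M.1.2 c = S.1
  let conf : Ω → Ω → Prop := fun S S' => Disjoint S.1 S'.1
  -- the cardinality of `T M`
  have hT : ∀ M, (3 : ℝ) ^ k / 2 ≤ (T M).card := by
    intro M
    have e1 : ((univ.filter fun c : Fin k → Fin 3 => m ≤ (sel M.1.1 M.1.2 c).card).image
        (sel M.1.1 M.1.2)) ⊆ (T M).image Subtype.val := by
      intro S hS
      obtain ⟨c, hc, rfl⟩ := mem_image.mp hS
      rw [mem_filter] at hc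
      exact mem_image.mpr ⟨⟨_, hc.2⟩, mem_filter.mpr ⟨mem_univ _, c, rfl⟩, rfl⟩
    have e2 := card_le_card e1
    rw [card_image_of_injective _ (sel_injective M.2)] at e2
    have e3 : ((T M).image Subtype.val).card ≤ (T M).card := card_image_le
    have e4 := card_choices M.1.1 M.1.2 m
    have e5 := small_sel M.1.1 M.1.2 M.2 m
    have e6 : ((univ.filter fun c : Fin k → Fin 3 => (sel M.1.1 M.1.2 c).card < m).card : ℝ) +
      ((univ.filter fun c : Fin k → Fin 3 => m ≤ (sel M.1.1 M.1.2 c).card).card : ℝ) = 3 ^ k := by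
      exact_mod_cast e4
    have e7 : ((univ.filter fun c : Fin k → Fin 3 => m ≤ (sel M.1.1 M.1.2 c).card).card : ℝ) ≤
      (T M).card := by exact_mod_cast e2.trans e3
    have e8 : (2 : ℝ) ^ (m + k) * 2 ≤ 3 ^ k := by
      rw [← pow_succ]; exact h1
    linarith
  have hcf : ∀ (M : ι) (S' : Ω), (((T M).filter (conf S')).card : ℝ) ≤
      ((univ.filter fun c : Fin k → Fin 3 => Disjoint S'.1 (sel M.1.1 M.1.2 c)).card : ℝ) := by
    intro M S'
    have e1 : ((T M).filter (conf S')).image Subtype.val ⊆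
        (univ.filter fun c : Fin k → Fin 3 => Disjoint S'.1 (sel M.1.1 M.1.2 c)).image
          (sel M.1.1 M.1.2) := by
      intro S hS
      obtain ⟨S0, hS0, rfl⟩ := mem_image.mp hS
      rw [mem_filter, mem_filter] at hS0
      obtain ⟨⟨-, c, hc⟩, hd⟩ := hS0
      refine mem_image.mpr ⟨c, mem_filter.mpr ⟨mem_univ _, ?_⟩, hc⟩
      rw [hc]; exact hd
    have e2 := (card_le_card e1).trans card_image_le
    rw [card_image_of_injective _ Subtype.val_injective] at e2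
    exact_mod_cast e2
  have h3k : (0 : ℝ) < 3 ^ k := by positivity
  have hxpos : (0 : ℝ) < 2 * (2 / 3 : ℝ) ^ l := by positivity
  have hmax : ∀ (M : ι) (S' : Ω), (((T M).filter (conf S')).card : ℝ) ≤
      (2 * (2 / 3 : ℝ) ^ l) * (T M).card := by
    intro M S'
    have e1 := hcf M S'
    have e2 := disjoint_bound M.1.1 M.1.2 M.2 l S'.1 S'.2
    have e3 := hT M
    have e4 : (0 : ℝ) < (2 / 3 : ℝ) ^ l := by positivity
    calc (((T M).filter (conf S')).card : ℝ) ≤ 3 ^ k * (2 / 3 : ℝ) ^ l := e1.trans e2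
      _ = (2 * (2 / 3 : ℝ) ^ l) * (3 ^ k / 2) := by ring
      _ ≤ _ := mul_le_mul_of_nonneg_left e3 hxpos.le
  -- `ι` may be assumed nonempty; `Ω` is nonempty
  have hk1 : Nonempty ι := by
    obtain ⟨a, b, hM, -, -⟩ := exists_matching (t := k) (univ : Finset (Fin n)) (by
      rw [card_univ, Fintype.card_fin]; exact hk)
    exact ⟨⟨(a, b), hM⟩⟩
  obtain ⟨M0⟩ := hk1
  have hC : (3 : ℝ) ^ k / 2 ≤ Fintype.card Ω :=
    (hT M0).trans (by exact_mod_cast card_le_univ _)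
  have hCpos : (0 : ℝ) < Fintype.card Ω := lt_of_lt_of_le (by positivity) hC
  set C : ℝ := (Fintype.card Ω : ℝ) with hCdef
  set ρ : ℝ := 2 ^ (n + k + 1) / (C * 3 ^ k) with hρ
  have hρ0 : 0 ≤ ρ := by positivity
  have havg : ∀ M : ι, ∑ S' : Ω, (((T M).filter (conf S')).card : ℝ) ≤ ρ * C * (T M).card := by
    intro M
    let g : Finset (Fin n) → ℝ := fun S =>
      ((univ.filter fun c : Fin k → Fin 3 => Disjoint S (sel M.1.1 M.1.2 c)).card : ℝ)
    calc ∑ S' : Ω, (((T M).filter (conf S')).card : ℝ) ≤ ∑ S' : Ω, g S'.1 :=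
          sum_le_sum fun S' _ => hcf M S'
      _ = ∑ S ∈ (univ : Finset Ω).image Subtype.val, g S :=
          (sum_image fun _ _ _ _ h => Subtype.ext h).symm
      _ ≤ ∑ S, g S := sum_le_sum_of_subset_of_nonneg (subset_univ _) fun S _ _ => by
          simp only [g]; positivity
      _ = 2 ^ (n + k) := sum_disjoint M.1.1 M.1.2 M.2
      _ = ρ * C * (3 ^ k / 2) := by
          rw [hρ]
          field_simp
          ring
      _ ≤ _ := mul_le_mul_of_nonneg_left (hT M) (by positivity)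
  -- the number of steps
  set Y : ℝ := C * 3 ^ k / 2 ^ (n + k + 4) with hY
  have hY1 : 1 ≤ Y := by
    rw [hY, le_div_iff₀ (by positivity), one_mul]
    have e1 : (2 : ℝ) ^ (n + k + 4) * 2 ≤ 3 ^ k * 3 ^ k := by
      have e2 : (3 : ℝ) ^ k * 3 ^ k = (9 / 2 : ℝ) ^ k * 2 ^ k := by
        rw [← mul_pow, ← mul_pow]; norm_num
      rw [e2]
      calc (2 : ℝ) ^ (n + k + 4) * 2 = 2 ^ (n + 5) * 2 ^ k := by
            rw [← pow_succ, ← pow_add]; congr 1; omega
        _ ≤ _ := mul_le_mul_of_nonneg_right h4 (by positivity)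
    nlinarith
  let N := ⌊Y⌋₊
  have hN1 : (N : ℝ) ≤ Y := Nat.floor_le (by positivity)
  have hN2 : Y / 2 ≤ N := by
    have := Nat.lt_floor_add_one Y
    have h5 : 1 ≤ N := Nat.one_le_floor_iff Y |>.mpr hY1
    have h6 : (1 : ℝ) ≤ N := by exact_mod_cast h5
    have h7 : Y < N + 1 := this
    linarith
  have hι : (Fintype.card ι : ℝ) ≤ (n : ℝ) ^ n := by
    have e1 : Fintype.card ι ≤ Fintype.card ((Fin k → Fin n) × (Fin k → Fin n)) :=
      Fintype.card_subtype_le _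
    have e2 : Fintype.card ((Fin k → Fin n) × (Fin k → Fin n)) = n ^ (2 * k) := by
      simp only [Fintype.card_prod, Fintype.card_pi, Fintype.card_fin, prod_const, card_univ]
      rw [← pow_add, two_mul]
    have e3 : n ^ (2 * k) ≤ n ^ n := Nat.pow_le_pow_right hn hk
    rw [e2] at e1
    exact_mod_cast e1.trans e3
  have hq : (1 - (3 : ℝ) ^ k / 2 / (2 * C)) ^ N ≤ Real.exp (-((9 / 2 : ℝ) ^ k / 2 ^ (n + 7))) := by
    have e1 : 1 - (3 : ℝ) ^ k / 2 / (2 * C) ≤ Real.exp (-((3 : ℝ) ^ k / 2 / (2 * C))) := by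
      have := Real.add_one_le_exp (-((3 : ℝ) ^ k / 2 / (2 * C)))
      linarith
    have e0 : 0 ≤ 1 - (3 : ℝ) ^ k / 2 / (2 * C) := by
      have : (3 : ℝ) ^ k / 2 / (2 * C) ≤ 1 := by
        rw [div_le_one (by positivity)]; linarith
      linarith
    refine (pow_le_pow_left₀ e0 e1 N).trans ?_
    rw [← Real.exp_nat_mul]
    apply Real.exp_le_exp.mpr
    have e2 : (9 / 2 : ℝ) ^ k / 2 ^ (n + 7) = Y / 2 * ((3 : ℝ) ^ k / 2 / (2 * C)) := by
      rw [hY]
      have e3 : (9 / 2 : ℝ) ^ k = 3 ^ k * 3 ^ k / 2 ^ k := by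
        rw [← mul_pow, ← div_pow]; norm_num
      rw [e3]
      field_simp
      ring
    rw [e2]
    have e4 : Y / 2 * ((3 : ℝ) ^ k / 2 / (2 * C)) ≤ N * ((3 : ℝ) ^ k / 2 / (2 * C)) :=
      mul_le_mul_of_nonneg_right hN2 (by positivity)
    linarith
  have hw : (2 : ℝ) ^ (-(1 / (2 * (2 * (2 / 3 : ℝ) ^ l)))) * (1 + ρ / (2 * (2 / 3 : ℝ) ^ l)) ^ N ≤
      Real.exp (-((3 / 2 : ℝ) ^ l / 10)) := by
    set x : ℝ := 2 * (2 / 3 : ℝ) ^ l with hx
    have e1 : (1 + ρ / x) ^ N ≤ Real.exp (N * (ρ / x)) := by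
      rw [Real.exp_nat_mul]
      apply pow_le_pow_left₀ (by positivity)
      have := Real.add_one_le_exp (ρ / x)
      linarith
    have e2 : (N : ℝ) * (ρ / x) ≤ 1 / 8 / x := by
      rw [mul_div_assoc']
      apply div_le_div_of_nonneg_right _ hxpos.le
      calc (N : ℝ) * ρ ≤ Y * ρ := mul_le_mul_of_nonneg_right hN1 hρ0
        _ = 1 / 8 := by
          rw [hY, hρ]
          field_simp
          ring
    have e3 : (2 : ℝ) ^ (-(1 / (2 * x))) = Real.exp (-(Real.log 2 / 2) * (1 / x)) := by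
      rw [Real.rpow_def_of_pos (by norm_num)]
      congr 1
      field_simp
    rw [e3]
    have e4 : Real.exp (-(Real.log 2 / 2) * (1 / x)) * (1 + ρ / x) ^ N ≤
        Real.exp (-(Real.log 2 / 2) * (1 / x)) * Real.exp (1 / 8 / x) := by
      apply mul_le_mul_of_nonneg_left _ (Real.exp_pos _).le
      exact e1.trans (Real.exp_le_exp.mpr e2)
    refine e4.trans ?_
    rw [← Real.exp_add]
    apply Real.exp_le_exp.mpr
    have e5 : (1 / x) = (3 / 2 : ℝ) ^ l / 2 := by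
      rw [hx]
      have : (3 / 2 : ℝ) ^ l = ((2 / 3 : ℝ) ^ l)⁻¹ := by
        rw [← inv_pow]; norm_num
      rw [this]
      field_simp
    have e6 : 1 / 8 / x = 1 / 8 * (1 / x) := by ring
    rw [e6, e5]
    have e7 : 0.6931471803 < Real.log 2 := Real.log_two_gt_d9
    have e8 : 0 < (3 / 2 : ℝ) ^ l := by positivity
    nlinarith
  have hfin : (Fintype.card ι : ℝ) * ((1 - (3 : ℝ) ^ k / 2 / (2 * C)) ^ N +
      (2 : ℝ) ^ (-(1 / (2 * (2 * (2 / 3 : ℝ) ^ l)))) * (1 + ρ / (2 * (2 / 3 : ℝ) ^ l)) ^ N) < 1 := by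
    have hnn : (0 : ℝ) ≤ (n : ℝ) ^ n := by positivity
    calc (Fintype.card ι : ℝ) * ((1 - (3 : ℝ) ^ k / 2 / (2 * C)) ^ N +
      (2 : ℝ) ^ (-(1 / (2 * (2 * (2 / 3 : ℝ) ^ l)))) * (1 + ρ / (2 * (2 / 3 : ℝ) ^ l)) ^ N)
        ≤ (Fintype.card ι : ℝ) * (Real.exp (-((9 / 2 : ℝ) ^ k / 2 ^ (n + 7))) +
            Real.exp (-((3 / 2 : ℝ) ^ l / 10))) :=
          mul_le_mul_of_nonneg_left (add_le_add hq hw) (by positivity)
      _ ≤ (n : ℝ) ^ n * (Real.exp (-((9 / 2 : ℝ) ^ k / 2 ^ (n + 7))) +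
            Real.exp (-((3 / 2 : ℝ) ^ l / 10))) :=
          mul_le_mul_of_nonneg_right hι (by positivity)
      _ < 1 := by rw [mul_add]; linarith
  obtain ⟨A, hA, hit⟩ := Greedy.exists_family conf (fun a b h => h.symm) (fun a h => by
      have e1 : a.1 = ∅ := disjoint_self_iff_empty _ |>.mp h
      have e2 : m ≤ a.1.card := a.2
      rw [e1, card_empty] at e2
      have e3 : 1 ≤ m := le_trans hl (Nat.le_add_left _ _)
      omega) T ((3 : ℝ) ^ k / 2) (2 * (2 / 3 : ℝ) ^ l) ρ N (by positivity) hxpos hρ0 hT hmax havg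
      hfin
  apply not_good_of_family {S | ∃ S' ∈ A, S'.1 = S}
  · rintro _ ⟨S, hS, rfl⟩ _ ⟨S', hS', rfl⟩
    rw [← not_disjoint_iff_nonempty_inter]
    exact hA S hS S' hS'
  · intro a b hM
    obtain ⟨S, hS, hST⟩ := hit ⟨(a, b), hM⟩
    rw [mem_filter] at hST
    obtain ⟨-, c, hc⟩ := hST
    exact ⟨S.1, ⟨S, hS, rfl⟩, c, hc⟩

end Pool.Agent.R951.SH
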